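import Pool.Agent.H28.GN.T4

/-!
# Board thg_modules, row GV1: one step of the generalised inequality of von Neumann (helper12)
-/

set_option autoImplicit false

open Filter Topology Finset

namespace Pool.Agent.H12.GNG

open Pool.Agent.H28.GN

/-! ### One-dimensional shift -/

theorem shift1 (g : ℕ → ℂ) (C : ℝ) (hg : ∀ i, ‖g i‖ ≤ C) (M k : ℕ) :
    ‖∑ i ∈ range M, g (i + k) - ∑ i ∈ range M, g i‖ ≤ 2 * k * C := by
  induction k with
  | zero => simp
  | succ k ih =>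
    have h1 : ∑ i ∈ range M, g (i + (k + 1)) - ∑ i ∈ range M, g (i + k) =
        g (M + k) - g (0 + k) := by
      rw [← Finset.sum_sub_distrib]
      have h2 := Finset.sum_range_sub (fun i => g (i + k)) M
      rw [← h2]
      apply Finset.sum_congr rfl
      intro i _
      congr 2
      ring
    have h3 : ∑ i ∈ range M, g (i + (k + 1)) - ∑ i ∈ range M, g i =
        (g (M + k) - g (0 + k)) + (∑ i ∈ range M, g (i + k) - ∑ i ∈ range M, g i) := by
      rw [← h1]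
      ring
    rw [h3]
    refine (norm_add_le _ _).trans ?_
    have h4 : ‖g (M + k) - g (0 + k)‖ ≤ 2 * C := by
      refine (norm_sub_le _ _).trans ?_
      linarith [hg (M + k), hg (0 + k)]
    push_cast
    linarith

theorem sum_Ioc_range (Z : ℤ → ℂ) (w : ℤ) (M : ℕ) :
    ∑ n ∈ Ioc w (w + M), Z n = ∑ i ∈ range M, Z (w + 1 + i) := by
  apply Finset.sum_nbij' (fun n => (n - w - 1).toNat) (fun i => w + 1 + (i : ℤ))
  · intro n hn
    rw [Finset.mem_Ioc] at hn
    rw [Finset.mem_range]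
    omega
  · intro i hi
    rw [Finset.mem_range] at hi
    rw [Finset.mem_Ioc]
    omega
  · intro n hn
    rw [Finset.mem_Ioc] at hn
    omega
  · intro i hi
    omega
  · intro n hn
    rw [Finset.mem_Ioc] at hn
    congr 1
    omega

theorem shift_n (Z : ℤ → ℂ) (hZ : ∀ n, ‖Z n‖ ≤ 1) (w : ℤ) (M l : ℕ) :
    ‖∑ n ∈ Ioc w (w + M), Z n - ∑ n ∈ Ioc w (w + M), Z (n - l)‖ ≤ 2 * l := by
  rw [sum_Ioc_range Z w M, sum_Ioc_range (fun n => Z (n - l)) w M]
  have h1 := shift1 (fun i => Z (w + 1 - l + i)) 1 (fun i => hZ _) M l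
  rw [mul_one] at h1
  convert h1 using 3
  · apply Finset.sum_congr rfl
    intro i _
    congr 1
    push_cast
    ring
  · apply Finset.sum_congr rfl
    intro i _
    congr 1
    ring

/-! ### Shift of the parameters -/

/-- shift of the coordinate `r` -/
def sh {R : ℕ} (r : Fin R) (k : ℕ) (t : Fin R → ℕ) : Fin R → ℕ :=
  fun i => t i + if i = r then k else 0

theorem lf_sh {R : ℕ} (a : Fin R → ℕ) (r : Fin R) (k : ℕ) (t : Fin R → ℕ) :
    lf a (sh r k t) = lf a t + a r * k := by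
  unfold lf sh
  simp only [mul_add, Finset.sum_add_distrib, mul_ite, mul_zero, Finset.sum_ite_eq',
    Finset.mem_univ, if_true]

/-- the parameters with a marked coordinate -/
def BB {R : ℕ} (r : Fin R) (K : ℕ) : Finset (Fin R → ℕ) :=
  Fintype.piFinset (Function.update (fun _ => Icc 1 K) r {0})

theorem mem_BB {R : ℕ} (r : Fin R) (K : ℕ) (b : Fin R → ℕ) :
    b ∈ BB r K ↔ b r = 0 ∧ ∀ i, i ≠ r → b i ∈ Icc 1 K := by
  unfold BB
  rw [Fintype.mem_piFinset]
  constructor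
  · intro h
    refine ⟨?_, fun i hi => ?_⟩
    · have := h r
      rw [Function.update_self, Finset.mem_singleton] at this
      exact this
    · have := h i
      rw [Function.update_of_ne hi] at this
      exact this
  · rintro ⟨h1, h2⟩ i
    by_cases hi : i = r
    · subst hi
      rw [Function.update_self, Finset.mem_singleton]
      exact h1
    · rw [Function.update_of_ne hi]
      exact h2 i hi

theorem mem_Tk {R : ℕ} (K : ℕ) (t : Fin R → ℕ) : t ∈ Tk R K ↔ ∀ i, t i ∈ Icc 1 K :=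
  Fintype.mem_piFinset

theorem sum_Tk {E : Type} [AddCommMonoid E] {R : ℕ} (r : Fin R) (K : ℕ)
    (Ψ : (Fin R → ℕ) → E) :
    ∑ t ∈ Tk R K, Ψ t = ∑ b ∈ BB r K, ∑ i ∈ range K, Ψ (Function.update b r (i + 1)) := by
  rw [← Finset.sum_product']
  apply Finset.sum_nbij' (fun t => (Function.update t r 0, t r - 1))
    (fun p => Function.update p.1 r (p.2 + 1))
  · intro t ht
    rw [mem_Tk] at ht
    have hr := ht r
    rw [Finset.mem_Icc] at hr
    rw [Finset.mem_product, Finset.mem_range, mem_BB]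
    refine ⟨⟨?_, fun i hi => ?_⟩, ?_⟩
    · exact Function.update_self _ _ _
    · show Function.update t r 0 i ∈ Icc 1 K
      rw [Function.update_of_ne hi]
      exact ht i
    · show t r - 1 < K
      omega
  · rintro ⟨b, i⟩ hp
    rw [Finset.mem_product, Finset.mem_range, mem_BB] at hp
    rw [mem_Tk]
    intro j
    show Function.update b r (i + 1) j ∈ Icc 1 K
    by_cases hj : j = r
    · subst hj
      rw [Function.update_self, Finset.mem_Icc]
      have := hp.2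
      dsimp only at this
      omega
    · rw [Function.update_of_ne hj]
      exact hp.1.2 j hj
  · intro t ht
    rw [mem_Tk] at ht
    have hr := ht r
    rw [Finset.mem_Icc] at hr
    show Function.update (Function.update t r 0) r (t r - 1 + 1) = t
    rw [Function.update_idem, Nat.sub_add_cancel hr.1, Function.update_eq_self]
  · rintro ⟨b, i⟩ hp
    rw [Finset.mem_product, Finset.mem_range, mem_BB] at hp
    show (Function.update (Function.update b r (i + 1)) r 0,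
      Function.update b r (i + 1) r - 1) = (b, i)
    rw [Function.update_idem, Function.update_self, Nat.add_sub_cancel]
    congr 1
    have h0 : b r = 0 := hp.1.1
    rw [← h0, Function.update_eq_self]
  · intro t ht
    rw [mem_Tk] at ht
    have hr := ht r
    rw [Finset.mem_Icc] at hr
    show Ψ t = Ψ (Function.update (Function.update t r 0) r (t r - 1 + 1))
    rw [Function.update_idem, Nat.sub_add_cancel hr.1, Function.update_eq_self]

theorem card_Tk (R K : ℕ) : (Tk R K).card = K ^ R := by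
  unfold Tk
  rw [Fintype.card_piFinset_const, Nat.card_Icc, Nat.add_sub_cancel]

theorem card_BB {R : ℕ} (r : Fin R) (K : ℕ) : (BB r K).card * K = K ^ R := by
  have h := sum_Tk r K (fun _ => (1 : ℕ))
  simp only [Finset.sum_const, smul_eq_mul, mul_one, Finset.card_range] at h
  rw [← h, card_Tk]

theorem sh_update {R : ℕ} (r : Fin R) (k i : ℕ) (b : Fin R → ℕ) :
    sh r k (Function.update b r i) = Function.update b r (i + k) := by
  funext j
  unfold sh
  by_cases hj : j = r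
  · subst hj
    rw [Function.update_self, Function.update_self, if_pos rfl]
  · rw [Function.update_of_ne hj, Function.update_of_ne hj, if_neg hj, add_zero]

theorem shift_t {R : ℕ} (r : Fin R) (K k : ℕ) (C : ℝ) (Ψ : (Fin R → ℕ) → ℂ)
    (hΨ : ∀ t, ‖Ψ t‖ ≤ C) :
    ‖∑ t ∈ Tk R K, Ψ t - ∑ t ∈ Tk R K, Ψ (sh r k t)‖ ≤ ((BB r K).card : ℝ) * (2 * k * C) := by
  rw [sum_Tk r K Ψ, sum_Tk r K (fun t => Ψ (sh r k t)), ← Finset.sum_sub_distrib]
  refine (norm_sum_le _ _).trans ?_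
  rw [← nsmul_eq_mul]
  apply Finset.sum_le_card_nsmul
  intro b _
  have h1 := shift1 (fun i => Ψ (Function.update b r (i + 1))) C (fun i => hΨ _) K k
  rw [norm_sub_rev]
  have h2 : ∑ i ∈ range K, Ψ (sh r k (Function.update b r (i + 1))) =
      ∑ i ∈ range K, Ψ (Function.update b r (i + k + 1)) := by
    apply Finset.sum_congr rfl
    intro i _
    rw [sh_update]
    congr 2
    ring
  rw [h2]
  exact h1

/-! ### The mean -/

theorem EM_den_pos {R K M : ℕ} (hK : 0 < K) (hM : 0 < M) : (0 : ℝ) < (K : ℝ) ^ R * M := by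
  have h1 : (0 : ℝ) < K := by exact_mod_cast hK
  have h2 : (0 : ℝ) < M := by exact_mod_cast hM
  positivity

theorem norm_den (R K M : ℕ) : ‖((K : ℂ) ^ R * M)‖ = (K : ℝ) ^ R * M := by
  rw [norm_mul, norm_pow, Complex.norm_natCast, Complex.norm_natCast]

theorem EM_shift {R : ℕ} (r : Fin R) (X : (Fin R → ℕ) → ℤ → ℂ) (hX : ∀ t n, ‖X t n‖ ≤ 1)
    (w : ℤ) (K M k l : ℕ) (hK : 0 < K) (hM : 0 < M) :
    ‖EM K M w X - EM K M w (fun t n => X (sh r k t) (n - l))‖ ≤
      2 * l / M + 2 * k / K := by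
  have hD := EM_den_pos (R := R) hK hM
  have hK0 : (0 : ℝ) < K := by exact_mod_cast hK
  have hM0 : (0 : ℝ) < M := by exact_mod_cast hM
  have hKR : (0 : ℝ) < (K : ℝ) ^ R := by positivity
  unfold EM
  rw [← sub_div, norm_div, norm_den, div_le_iff₀ hD]
  have h1 : ‖∑ t ∈ Tk R K, ∑ n ∈ Ioc w (w + M), X t n -
      ∑ t ∈ Tk R K, ∑ n ∈ Ioc w (w + M), X t (n - l)‖ ≤ (K : ℝ) ^ R * (2 * l) := by
    rw [← Finset.sum_sub_distrib]
    refine (norm_sum_le _ _).trans ?_
    have h2 := Finset.sum_le_card_nsmul (Tk R K) (fun t => ‖∑ n ∈ Ioc w (w + M), X t n -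
      ∑ n ∈ Ioc w (w + M), X t (n - l)‖) (2 * (l : ℝ)) (fun t _ => shift_n (X t) (hX t) w M l)
    rw [nsmul_eq_mul, card_Tk] at h2
    push_cast at h2
    exact h2
  have h3 : ‖∑ t ∈ Tk R K, ∑ n ∈ Ioc w (w + M), X t (n - l) -
      ∑ t ∈ Tk R K, ∑ n ∈ Ioc w (w + M), X (sh r k t) (n - l)‖ ≤
        ((BB r K).card : ℝ) * (2 * k * M) := by
    apply shift_t r K k (M : ℝ) (fun t => ∑ n ∈ Ioc w (w + M), X t (n - l))
    intro t
    refine (norm_sum_le _ _).trans ?_
    have h2 := Finset.sum_le_card_nsmul (Ioc w (w + (M : ℤ))) (fun n => ‖X t (n - l)‖) (1 : ℝ)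
      (fun n _ => hX t (n - l))
    rw [nsmul_eq_mul, mul_one, Int.card_Ioc] at h2
    have h4 : (w + (M : ℤ) - w).toNat = M := by omega
    rw [h4] at h2
    exact h2
  have h5 : ‖∑ t ∈ Tk R K, ∑ n ∈ Ioc w (w + M), X t n -
      ∑ t ∈ Tk R K, ∑ n ∈ Ioc w (w + M), X (sh r k t) (n - l)‖ ≤
        (K : ℝ) ^ R * (2 * l) + ((BB r K).card : ℝ) * (2 * k * M) := by
    refine le_trans ?_ (add_le_add h1 h3)
    refine le_trans (le_of_eq ?_) (norm_add_le _ _)
    congr 1
    ring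
  refine h5.trans (le_of_eq ?_)
  have h6 : ((BB r K).card : ℝ) * K = (K : ℝ) ^ R := by exact_mod_cast card_BB r K
  rw [← h6]
  field_simp

theorem EM_norm_le {R : ℕ} (X : (Fin R → ℕ) → ℤ → ℂ) (hX : ∀ t n, ‖X t n‖ ≤ 1)
    (w : ℤ) (K M : ℕ) (hK : 0 < K) (hM : 0 < M) : ‖EM K M w X‖ ≤ 1 := by
  have hD := EM_den_pos (R := R) hK hM
  unfold EM
  rw [norm_div, norm_den, div_le_one hD]
  refine (norm_sum_le _ _).trans ?_
  have h1 : ∀ t ∈ Tk R K, ‖∑ n ∈ Ioc w (w + M), X t n‖ ≤ (M : ℝ) := by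
    intro t _
    refine (norm_sum_le _ _).trans ?_
    have h2 := Finset.sum_le_card_nsmul (Ioc w (w + (M : ℤ))) (fun n => ‖X t n‖) (1 : ℝ)
      (fun n _ => hX t n)
    rw [nsmul_eq_mul, mul_one, Int.card_Ioc] at h2
    have h4 : (w + (M : ℤ) - w).toNat = M := by omega
    rw [h4] at h2
    exact h2
  have h2 := Finset.sum_le_card_nsmul _ _ _ h1
  rw [nsmul_eq_mul, card_Tk] at h2
  push_cast at h2
  exact h2

/-- the double sum as a sum over pairs -/
theorem EM_pair {R : ℕ} (X : (Fin R → ℕ) → ℤ → ℂ) (w : ℤ) (K M : ℕ) :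
    EM K M w X = (∑ p ∈ Tk R K ×ˢ Ioc w (w + (M : ℤ)), X p.1 p.2) / ((K : ℂ) ^ R * M) := by
  unfold EM
  rw [Finset.sum_product]

theorem card_pair (R K M : ℕ) (w : ℤ) :
    (((Tk R K ×ˢ Ioc w (w + (M : ℤ))).card : ℕ) : ℝ) = (K : ℝ) ^ R * M := by
  rw [Finset.card_product, card_Tk, Int.card_Ioc]
  have h4 : (w + (M : ℤ) - w).toNat = M := by omega
  rw [h4]
  push_cast
  ring

/-- the inequality of Cauchy and Schwarz -/
theorem EM_CS {R : ℕ} (g Y : (Fin R → ℕ) → ℤ → ℂ) (hg : ∀ t n, ‖g t n‖ ≤ 1)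
    (w : ℤ) (K M : ℕ) (hK : 0 < K) (hM : 0 < M) :
    ‖EM K M w (fun t n => Y t n * g t n)‖ ^ 2 ≤
      (EM K M w (fun t n => Y t n * cj (Y t n))).re := by
  have hD := EM_den_pos (R := R) hK hM
  rw [EM_pair, EM_pair, norm_div, norm_den]
  have hre : ((∑ p ∈ Tk R K ×ˢ Ioc w (w + (M : ℤ)), Y p.1 p.2 * cj (Y p.1 p.2)) /
      ((K : ℂ) ^ R * M)).re =
      (∑ p ∈ Tk R K ×ˢ Ioc w (w + (M : ℤ)), ‖Y p.1 p.2‖ ^ 2) / ((K : ℝ) ^ R * M) := by
    have h1 : ((∑ p ∈ Tk R K ×ˢ Ioc w (w + (M : ℤ)), Y p.1 p.2 * cj (Y p.1 p.2)) /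
      ((K : ℂ) ^ R * M)) = (((∑ p ∈ Tk R K ×ˢ Ioc w (w + (M : ℤ)), ‖Y p.1 p.2‖ ^ 2) /
        ((K : ℝ) ^ R * M) : ℝ) : ℂ) := by
      push_cast
      congr 1
      apply Finset.sum_congr rfl
      intro p _
      unfold cj
      rw [Complex.mul_conj']
    rw [h1, Complex.ofReal_re]
  rw [hre]
  have h1 : ‖∑ p ∈ Tk R K ×ˢ Ioc w (w + (M : ℤ)), Y p.1 p.2 * g p.1 p.2‖ ≤
      ∑ p ∈ Tk R K ×ˢ Ioc w (w + (M : ℤ)), ‖Y p.1 p.2‖ := by
    refine (norm_sum_le _ _).trans ?_
    apply Finset.sum_le_sum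
    intro p _
    rw [norm_mul]
    have := hg p.1 p.2
    have h2 := norm_nonneg (Y p.1 p.2)
    nlinarith
  have h2 : (∑ p ∈ Tk R K ×ˢ Ioc w (w + (M : ℤ)), ‖Y p.1 p.2‖) ^ 2 ≤
      ((K : ℝ) ^ R * M) * ∑ p ∈ Tk R K ×ˢ Ioc w (w + (M : ℤ)), ‖Y p.1 p.2‖ ^ 2 := by
    have h3 := sq_sum_le_card_mul_sum_sq (s := Tk R K ×ˢ Ioc w (w + (M : ℤ)))
      (f := fun p => ‖Y p.1 p.2‖)
    rw [card_pair] at h3
    exact h3
  rw [div_pow, div_le_div_iff₀ (by positivity) hD]
  have h4 : ‖∑ p ∈ Tk R K ×ˢ Ioc w (w + (M : ℤ)), Y p.1 p.2 * g p.1 p.2‖ ^ 2 ≤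
      ((K : ℝ) ^ R * M) * ∑ p ∈ Tk R K ×ˢ Ioc w (w + (M : ℤ)), ‖Y p.1 p.2‖ ^ 2 := by
    refine le_trans ?_ h2
    exact pow_le_pow_left₀ (norm_nonneg _) h1 2
  calc _ ≤ ((K : ℝ) ^ R * M) * (∑ p ∈ Tk R K ×ˢ Ioc w (w + (M : ℤ)), ‖Y p.1 p.2‖ ^ 2) *
        ((K : ℝ) ^ R * M) := mul_le_mul_of_nonneg_right h4 hD.le
    _ = _ := by ring

/-- linearity -/
theorem EM_sum {R : ℕ} {ι : Type} (S : Finset ι) (X : ι → (Fin R → ℕ) → ℤ → ℂ) (w : ℤ)
    (K M : ℕ) : EM K M w (fun t n => ∑ x ∈ S, X x t n) = ∑ x ∈ S, EM K M w (X x) := by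
  unfold EM
  rw [← Finset.sum_div]
  congr 1
  rw [Finset.sum_comm (s := S)]
  apply Finset.sum_congr rfl
  intro t _
  rw [Finset.sum_comm]

theorem EM_smul {R : ℕ} (c : ℂ) (X : (Fin R → ℕ) → ℤ → ℂ) (w : ℤ)
    (K M : ℕ) : EM K M w (fun t n => c * X t n) = c * EM K M w X := by
  unfold EM
  rw [← mul_div_assoc]
  congr 1
  rw [Finset.mul_sum]
  apply Finset.sum_congr rfl
  intro t _
  rw [Finset.mul_sum]

/-- one step, in a general form -/
theorem step {R : ℕ} (r : Fin R) (X : (Fin R → ℕ) → ℤ → ℂ) (hX : ∀ t n, ‖X t n‖ ≤ 1)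
    (H L q : ℕ) (k : ℕ → ℕ) (hk : ∀ x < H, k x ≤ L) (hH : 0 < H)
    (Y : ℕ → (Fin R → ℕ) → ℤ → ℂ) (g : (Fin R → ℕ) → ℤ → ℂ) (hg : ∀ t n, ‖g t n‖ ≤ 1)
    (hXY : ∀ x < H, ∀ t n, X (sh r (k x) t) (n - ((q * k x : ℕ) : ℤ)) = Y x t n * g t n)
    (w : ℤ) (K M : ℕ) (hK : 0 < K) (hM : 0 < M) :
    ‖EM K M w X‖ ^ 2 ≤ (∑ x ∈ range H, ∑ y ∈ range H,
      (EM K M w (fun t n => Y x t n * cj (Y y t n))).re) / (H : ℝ) ^ 2 +
      4 * L * (1 + q) * (1 / M + 1 / K) := by
  have hK0 : (0 : ℝ) < K := by exact_mod_cast hK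
  have hM0 : (0 : ℝ) < M := by exact_mod_cast hM
  have hH0 : (0 : ℝ) < H := by exact_mod_cast hH
  have hHC : (H : ℂ) ≠ 0 := by exact_mod_cast hH.ne'
  set E' : ℂ := EM K M w (fun t n => ((H : ℂ)⁻¹ * ∑ x ∈ range H, Y x t n) * g t n) with hE'
  have hE'1 : E' = (H : ℂ)⁻¹ * ∑ x ∈ range H,
      EM K M w (fun t n => X (sh r (k x) t) (n - ((q * k x : ℕ) : ℤ))) := by
    rw [← EM_sum, ← EM_smul, hE']
    congr 1
    funext t n
    rw [mul_assoc, Finset.sum_mul]
    congr 1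
    apply Finset.sum_congr rfl
    intro x hx
    rw [Finset.mem_range] at hx
    rw [hXY x hx]
  -- the translation error
  have herr : ‖EM K M w X - E'‖ ≤ 2 * L * (1 + q) * (1 / M + 1 / K) := by
    have h1 : EM K M w X - E' = (H : ℂ)⁻¹ * ∑ x ∈ range H, (EM K M w X -
        EM K M w (fun t n => X (sh r (k x) t) (n - ((q * k x : ℕ) : ℤ)))) := by
      rw [hE'1, Finset.sum_sub_distrib, Finset.sum_const, Finset.card_range, nsmul_eq_mul, mul_sub]
      congr 1
      field_simp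
    rw [h1, norm_mul, norm_inv, Complex.norm_natCast]
    have h2 : ‖∑ x ∈ range H, (EM K M w X -
        EM K M w (fun t n => X (sh r (k x) t) (n - ((q * k x : ℕ) : ℤ))))‖ ≤
        H * (2 * L * (1 + q) * (1 / M + 1 / K)) := by
      refine (norm_sum_le _ _).trans ?_
      have h3 : ∀ x ∈ range H, ‖EM K M w X -
          EM K M w (fun t n => X (sh r (k x) t) (n - ((q * k x : ℕ) : ℤ)))‖ ≤
          2 * L * (1 + q) * (1 / M + 1 / K) := by
        intro x hx
        rw [Finset.mem_range] at hx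
        refine (EM_shift r X hX w K M (k x) (q * k x) hK hM).trans ?_
        have hkL : (k x : ℝ) ≤ L := by exact_mod_cast hk x hx
        have hk0 : (0 : ℝ) ≤ k x := Nat.cast_nonneg _
        have hq0 : (0 : ℝ) ≤ q := Nat.cast_nonneg _
        have hL0 : (0 : ℝ) ≤ L := Nat.cast_nonneg _
        have h4 : 2 * ((q * k x : ℕ) : ℝ) / M ≤ 2 * L * (1 + q) * (1 / M) := by
          rw [mul_one_div]
          apply div_le_div_of_nonneg_right _ hM0.le
          push_cast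
          nlinarith [mul_le_mul_of_nonneg_left hkL hq0]
        have h5 : 2 * (k x : ℝ) / K ≤ 2 * L * (1 + q) * (1 / K) := by
          rw [mul_one_div]
          apply div_le_div_of_nonneg_right _ hK0.le
          nlinarith [mul_nonneg hL0 hq0]
        calc _ ≤ 2 * L * (1 + q) * (1 / (M : ℝ)) + 2 * L * (1 + q) * (1 / K) := add_le_add h4 h5
          _ = _ := by ring
      have h4 := Finset.sum_le_card_nsmul _ _ _ h3
      rw [Finset.card_range, nsmul_eq_mul] at h4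
      exact h4
    calc (H : ℝ)⁻¹ * _ ≤ (H : ℝ)⁻¹ * (H * (2 * L * (1 + q) * (1 / M + 1 / K))) :=
          mul_le_mul_of_nonneg_left h2 (by positivity)
      _ = _ := by field_simp
  -- the inequality of Cauchy and Schwarz
  have hCS : ‖E'‖ ^ 2 ≤ (∑ x ∈ range H, ∑ y ∈ range H,
      (EM K M w (fun t n => Y x t n * cj (Y y t n))).re) / (H : ℝ) ^ 2 := by
    refine (EM_CS g (fun t n => (H : ℂ)⁻¹ * ∑ x ∈ range H, Y x t n) hg w K M hK hM).trans
      (le_of_eq ?_)
    have h1 : (fun (t : Fin R → ℕ) (n : ℤ) => ((H : ℂ)⁻¹ * ∑ x ∈ range H, Y x t n) *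
        cj ((H : ℂ)⁻¹ * ∑ x ∈ range H, Y x t n)) =
        fun t n => (((H : ℂ) ^ 2)⁻¹) * ∑ x ∈ range H, ∑ y ∈ range H,
          Y x t n * cj (Y y t n) := by
      funext t n
      have h2 : cj ((H : ℂ)⁻¹ * ∑ x ∈ range H, Y x t n) =
          (H : ℂ)⁻¹ * ∑ y ∈ range H, cj (Y y t n) := by
        unfold cj
        rw [map_mul, map_sum, map_inv₀, Complex.conj_natCast]
      rw [h2, ← Finset.sum_mul_sum]
      ring
    rw [h1, EM_smul, EM_sum]
    have h3 : ∀ x ∈ range H, EM K M w (fun t n => ∑ y ∈ range H, Y x t n * cj (Y y t n)) =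
        ∑ y ∈ range H, EM K M w (fun t n => Y x t n * cj (Y y t n)) := by
      intro x _
      rw [EM_sum]
    rw [Finset.sum_congr rfl h3]
    have h4 : (((H : ℂ) ^ 2)⁻¹) = ((((H : ℝ) ^ 2)⁻¹ : ℝ) : ℂ) := by push_cast; rfl
    rw [h4, Complex.re_ofReal_mul, Complex.re_sum]
    simp only [Complex.re_sum]
    rw [div_eq_mul_inv, mul_comm]
  -- both means are at most one
  have hb1 : ‖EM K M w X‖ ≤ 1 := EM_norm_le X hX w K M hK hM
  have hb2 : ‖E'‖ ≤ 1 := by
    rw [hE'1, norm_mul, norm_inv, Complex.norm_natCast]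
    have h2 : ‖∑ x ∈ range H,
        EM K M w (fun t n => X (sh r (k x) t) (n - ((q * k x : ℕ) : ℤ)))‖ ≤ H := by
      refine (norm_sum_le _ _).trans ?_
      have h3 : ∀ x ∈ range H,
          ‖EM K M w (fun t n => X (sh r (k x) t) (n - ((q * k x : ℕ) : ℤ)))‖ ≤ 1 :=
        fun x _ => EM_norm_le _ (fun t n => hX _ _) w K M hK hM
      have h4 := Finset.sum_le_card_nsmul _ _ _ h3
      rw [Finset.card_range, nsmul_eq_mul, mul_one] at h4
      exact h4
    calc (H : ℝ)⁻¹ * _ ≤ (H : ℝ)⁻¹ * H := mul_le_mul_of_nonneg_left h2 (by positivity)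
      _ = 1 := by field_simp
  have h1 : ‖EM K M w X‖ ≤ ‖E'‖ + ‖EM K M w X - E'‖ := by
    have := norm_add_le E' (EM K M w X - E')
    rw [add_sub_cancel] at this
    exact this
  have h2 : ‖EM K M w X‖ ^ 2 ≤ ‖E'‖ ^ 2 + 2 * ‖EM K M w X - E'‖ := by
    have h3 := norm_nonneg (EM K M w X - E')
    have h4 := norm_nonneg E'
    have h5 := norm_nonneg (EM K M w X)
    by_cases hc : ‖EM K M w X‖ ≤ ‖E'‖
    · nlinarith
    · have hc' := not_le.mp hc
      nlinarith
  linarith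

theorem pf_GV1 : T_GV1 := by
  intro J R a c H hH hc hDv
  obtain ⟨r, hr1, hr2⟩ := hDv (Fin.last J)
  set q : ℕ := a (Fin.last J).succ r with hq
  set p : ℕ := a 0 r with hp
  -- the step
  obtain ⟨d, hd⟩ : ∃ d : ℕ, (d : ℤ) * |(q : ℤ) - p| = c := by
    obtain ⟨z, hz⟩ := (abs_dvd _ _).mpr hr2
    have hpos : 0 < |(q : ℤ) - p| := by
      rw [abs_pos, sub_ne_zero]
      exact_mod_cast hr1
    have hz0 : 0 ≤ z := by
      by_contra hneg
      have h1 : z < 0 := not_le.mp hneg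
      have h2 : |(q : ℤ) - p| * z < 0 := mul_neg_of_pos_of_neg hpos h1
      rw [← hz] at h2
      have h3 : (0 : ℤ) ≤ c := Int.natCast_nonneg _
      omega
    refine ⟨z.toNat, ?_⟩
    rw [Int.toNat_of_nonneg hz0, hz]
    ring
  -- the index of the translation
  let σ : ℕ → ℕ := fun x => if q < p then x else H - 1 - x
  have hσ : ∀ x < H, σ x ≤ H := by
    intro x hx
    simp only [σ]
    split_ifs <;> omega
  set s : ℤ := if q < p then 0 else -(c : ℤ) * (H - 1) with hs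
  let e : ℕ → Fin J → ℤ := fun x j => ((a j.castSucc.succ r : ℤ) - q) * (d * σ x)
  refine ⟨4 * (d * H : ℕ) * (1 + q), e, s, by positivity, ?_⟩
  intro F G w M K hF hG hM hK
  set X : (Fin R → ℕ) → ℤ → ℂ := fun t n => F (n + lf (a 0) t) *
    ∏ j, G j (n + lf (a j.succ) t) with hX
  have hprod : ∀ (n : ℕ) (f : Fin n → ℂ), (∀ j, ‖f j‖ ≤ 1) → ‖∏ j, f j‖ ≤ 1 := by
    intro n f hf
    rw [norm_prod]
    exact Finset.prod_le_one (fun j _ => norm_nonneg _) (fun j _ => hf j)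
  have hX1 : ∀ t n, ‖X t n‖ ≤ 1 := by
    intro t n
    rw [hX]
    show ‖F (n + lf (a 0) t) * ∏ j, G j (n + lf (a j.succ) t)‖ ≤ 1
    rw [norm_mul]
    exact mul_le_one₀ (hF _) (norm_nonneg _) (hprod _ _ fun j => hG _ _)
  let Y : ℕ → (Fin R → ℕ) → ℤ → ℂ := fun x t n => F (n + lf (a 0) t + s + c * x) *
    ∏ j : Fin J, G j.castSucc (n + lf (a j.castSucc.succ) t + e x j)
  let g : (Fin R → ℕ) → ℤ → ℂ := fun t n => G (Fin.last J) (n + lf (a (Fin.last J).succ) t)
  have hXY : ∀ x < H, ∀ t n, X (sh r (d * σ x) t) (n - ((q * (d * σ x) : ℕ) : ℤ)) =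
      Y x t n * g t n := by
    intro x hx t n
    rw [hX]
    show F (n - ((q * (d * σ x) : ℕ) : ℤ) + lf (a 0) (sh r (d * σ x) t)) *
      ∏ j, G j (n - ((q * (d * σ x) : ℕ) : ℤ) + lf (a j.succ) (sh r (d * σ x) t)) =
      (F (n + lf (a 0) t + s + c * x) *
      ∏ j : Fin J, G j.castSucc (n + lf (a j.castSucc.succ) t + e x j)) *
      G (Fin.last J) (n + lf (a (Fin.last J).succ) t)
    rw [Fin.prod_univ_castSucc, ← mul_assoc]
    have e1 : n - ((q * (d * σ x) : ℕ) : ℤ) + lf (a 0) (sh r (d * σ x) t) =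
        n + lf (a 0) t + s + c * x := by
      rw [lf_sh, ← hp]
      push_cast
      rw [← hd, hs]
      simp only [σ]
      by_cases hqp : q < p
      · rw [if_pos hqp, if_pos hqp]
        have h1 : |(q : ℤ) - p| = p - q := by
          rw [abs_of_neg]
          · ring
          · have : (q : ℤ) < p := by exact_mod_cast hqp
            omega
        rw [h1]
        ring
      · rw [if_neg hqp, if_neg hqp]
        have h1 : |(q : ℤ) - p| = q - p := by
          rw [abs_of_nonneg]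
          have : (p : ℤ) ≤ q := by exact_mod_cast not_lt.mp hqp
          omega
        have h2 : ((H - 1 - x : ℕ) : ℤ) = (H : ℤ) - 1 - x := by omega
        rw [← hd, h1, h2]
        ring
    have e2 : ∀ j : Fin J, n - ((q * (d * σ x) : ℕ) : ℤ) +
        lf (a j.castSucc.succ) (sh r (d * σ x) t) =
        n + lf (a j.castSucc.succ) t + e x j := by
      intro j
      rw [lf_sh]
      simp only [e]
      push_cast
      ring
    have e3 : n - ((q * (d * σ x) : ℕ) : ℤ) + lf (a (Fin.last J).succ) (sh r (d * σ x) t) =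
        n + lf (a (Fin.last J).succ) t := by
      rw [lf_sh, ← hq]
      push_cast
      ring
    rw [e1, e3]
    simp only [e2]
  have h := step r X hX1 H (d * H) q (fun x => d * σ x)
    (fun x hx => Nat.mul_le_mul_left _ (hσ x hx)) hH Y g (fun t n => hG _ _) hXY w K M hK hM
  refine h.trans (le_of_eq ?_)
  congr 2
  apply Finset.sum_congr rfl
  intro x _
  apply Finset.sum_congr rfl
  intro y _
  congr 2
  funext t n
  simp only [Y]
  have hcj : cj (F (n + lf (a 0) t + s + c * y) *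
      ∏ j : Fin J, G j.castSucc (n + lf (a j.castSucc.succ) t + e y j)) =
      cj (F (n + lf (a 0) t + s + c * y)) *
      ∏ j : Fin J, cj (G j.castSucc (n + lf (a j.castSucc.succ) t + e y j)) := by
    unfold cj
    rw [map_mul, map_prod]
  rw [hcj, Finset.prod_mul_distrib]
  ring

end Pool.Agent.H12.GNG
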